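import Pool.Agent.Helper960.Crg.Final

open Filter Topology Metric

namespace Pool.Agent.Results.MP_8d04b0_an.Main

/-- `f` is an entire function of exponential type: `|f z| ≤ A e^{B |z|}`. -/
def ExpType (f : ℂ → ℂ) : Prop :=
  Differentiable ℂ f ∧ ∃ A B : ℝ, ∀ z, ‖f z‖ ≤ A * Real.exp (B * ‖z‖)

/-- The indicator `h_f(θ) = limsup_{r → ∞} r⁻¹ log |f (r e^{iθ})|`, with `log 0 = -∞`. -/
noncomputable def indicator (f : ℂ → ℂ) (θ : ℝ) : EReal :=
  limsup (fun r : ℝ =>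
    ENNReal.log ‖f (r * Complex.exp (θ * Complex.I))‖ₑ / (r : EReal)) atTop

/-- Completely regular growth (Levin, Pfluger; order 1) of an entire function `f ≢ 0` of
exponential type: there is an exceptional set `E = ⋃ⱼ {|z - cⱼ| < ρⱼ}` with
`R⁻¹ ∑_{|cⱼ| < R} ρⱼ → 0` as `R → ∞`, such that `r⁻¹ log |f (r e^{iθ})| - h_f(θ) → 0` as `r → ∞`,
`r e^{iθ} ∉ E`, uniformly in `θ` (written as
`e^{(h_f(θ) - ε) r} ≤ |f (r e^{iθ})| ≤ e^{(h_f(θ) + ε) r}`). -/
def CRG (f : ℂ → ℂ) : Prop :=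
  ExpType f ∧ (∃ z, f z ≠ 0) ∧ ∃ h : ℝ → ℝ, (∀ θ, indicator f θ = h θ) ∧
    ∃ (c : ℕ → ℂ) (ρ : ℕ → ℝ), (∀ j, 0 ≤ ρ j) ∧
      Tendsto (fun R : ℝ =>
        (∑' j, if ‖c j‖ < R then ENNReal.ofReal (ρ j) else 0) / ENNReal.ofReal R) atTop (𝓝 0) ∧
      ∀ ε > 0, ∃ R₀ : ℝ, ∀ r ≥ R₀, ∀ θ : ℝ,
        (∀ j, ρ j ≤ ‖r * Complex.exp (θ * Complex.I) - c j‖) →
          Real.exp ((h θ - ε) * r) ≤ ‖f (r * Complex.exp (θ * Complex.I))‖ ∧
          ‖f (r * Complex.exp (θ * Complex.I))‖ ≤ Real.exp ((h θ + ε) * r)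

/-- The Borel transform `∑ n! aₙ w^{-n-1}` of `f z = ∑ aₙ zⁿ` (so `n! aₙ = f⁽ⁿ⁾(0)`). -/
noncomputable def borel (f : ℂ → ℂ) (w : ℂ) : ℂ := ∑' n, iteratedDeriv n f 0 / w ^ (n + 1)

/-- The Borel transform of `f` continues analytically to the complement of `K`: some function
analytic off `K` agrees with it at all points of large modulus outside `K`. -/
def ContinuesOff (f : ℂ → ℂ) (K : Set ℂ) : Prop :=
  ∃ F : ℂ → ℂ, DifferentiableOn ℂ F Kᶜ ∧ ∃ R : ℝ, ∀ w : ℂ, R < ‖w‖ → w ∉ K → F w = borel f w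

/-- The conjugate diagram `D_f`: the smallest closed convex set outside of which the Borel
transform continues analytically. -/
def conjDiagram (f : ℂ → ℂ) : Set ℂ :=
  ⋂₀ {K : Set ℂ | IsClosed K ∧ Convex ℝ K ∧ ContinuesOff f K}

/-- `lam` is a corner of the compact convex set `D`: a common endpoint of two segments on the
boundary of `D` that do not lie on one line. If `D` degenerates to a segment, its two endpoints
are the corners. -/
def IsCorner (D : Set ℂ) (lam : ℂ) : Prop :=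
  (∃ a b : ℂ, a ≠ lam ∧ b ≠ lam ∧ segment ℝ lam a ⊆ frontier D ∧ segment ℝ lam b ⊆ frontier D ∧
    ¬ Collinear ℝ {lam, a, b}) ∨
  ∃ a : ℂ, a ≠ lam ∧ D = segment ℝ lam a

/-- The operator `φ(D) f = ∑ cₖ f⁽ᵏ⁾`, where `φ z = ∑ cₖ zᵏ`, `cₖ = φ⁽ᵏ⁾(0) / k!`. -/
noncomputable def opD (φ f : ℂ → ℂ) (z : ℂ) : ℂ :=
  ∑' k : ℕ, iteratedDeriv k φ 0 / (k.factorial : ℂ) * iteratedDeriv k f z

/-- **Convolution operators preserve completely regular growth.**
Let `f` be an entire function of exponential type with completely regular growth and let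
`φ ≢ 0` be entire (in particular `φ` may be of exponential type) with `φ lam ≠ 0` at every corner
`lam` of the conjugate diagram of `f`. Then `φ(D) f` converges everywhere and has completely
regular growth, except in the degenerate case in which the diagram is a single point `lam`,
`φ lam = 0` and `φ(D) f` vanishes identically. -/
theorem result (f φ : ℂ → ℂ) (hf : CRG f) (hφ : Differentiable ℂ φ) (hφ0 : ∃ z, φ z ≠ 0)
    (hcorner : ∀ lam : ℂ, IsCorner (conjDiagram f) lam → φ lam ≠ 0) :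
    (∀ z, Summable (fun k : ℕ =>
      iteratedDeriv k φ 0 / (k.factorial : ℂ) * iteratedDeriv k f z)) ∧
    (CRG (opD φ f) ∨
      ∃ lam : ℂ, conjDiagram f = {lam} ∧ φ lam = 0 ∧ ∀ z, opD φ f z = 0) :=
  Pool.Agent.Helper960.Crg.final f φ hf hφ hφ0 hcorner

end Pool.Agent.Results.MP_8d04b0_an.Main
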